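import Mathlib

/-!
# Primitive recursiveness of bounded formulas
-/

namespace Pool.Agent.H557R2.Nf

variable {α β γ : Type} [Primcodable α] [Primcodable β] [Primcodable γ]

attribute [fun_prop] Primrec

theorem pr_id : Primrec (fun a : α => a) := Primrec.id

theorem pr_const (b : β) : Primrec (fun _ : α => b) := Primrec.const b

theorem pr_comp {f : β → γ} {g : α → β} (hf : Primrec f) (hg : Primrec g) :
    Primrec (fun a => f (g a)) := hf.comp hg

theorem pr_pair {f : α → β} {g : α → γ} (hf : Primrec f) (hg : Primrec g) :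
    Primrec (fun a => (f a, g a)) := hf.pair hg

theorem pr_fst {f : α → β × γ} (hf : Primrec f) : Primrec (fun a => (f a).1) :=
  Primrec.fst.comp hf

theorem pr_snd {f : α → β × γ} (hf : Primrec f) : Primrec (fun a => (f a).2) :=
  Primrec.snd.comp hf

theorem pr_add {f g : α → ℕ} (hf : Primrec f) (hg : Primrec g) :
    Primrec (fun a => f a + g a) := Primrec.nat_add.comp hf hg

theorem pr_mul {f g : α → ℕ} (hf : Primrec f) (hg : Primrec g) :
    Primrec (fun a => f a * g a) := Primrec.nat_mul.comp hf hg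

theorem pr_div {f g : α → ℕ} (hf : Primrec f) (hg : Primrec g) :
    Primrec (fun a => f a / g a) := Primrec.nat_div.comp hf hg

theorem pr_mod {f g : α → ℕ} (hf : Primrec f) (hg : Primrec g) :
    Primrec (fun a => f a % g a) := Primrec.nat_mod.comp hf hg

theorem pr_natPair {f g : α → ℕ} (hf : Primrec f) (hg : Primrec g) :
    Primrec (fun a => Nat.pair (f a) (g a)) := Primrec₂.natPair.comp hf hg

theorem pow2 : Primrec (fun n : ℕ => 2 ^ n) := by
  have h : Primrec (fun n : ℕ => (fun m => 2 * m)^[n] 1) :=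
    Primrec.nat_iterate (h := fun _ m => 2 * m) Primrec.id (Primrec.const 1)
      (Primrec.nat_mul.comp (Primrec.const 2) Primrec.snd)
  refine h.of_eq fun n => ?_
  induction n with
  | zero => rfl
  | succ n ih => rw [Function.iterate_succ_apply', ih, pow_succ]; ring

theorem pr_pow2 {f : α → ℕ} (hf : Primrec f) : Primrec (fun a => 2 ^ f a) := pow2.comp hf

attribute [fun_prop] pr_id pr_const pr_comp pr_pair pr_fst pr_snd pr_add pr_mul pr_div pr_mod
  pr_natPair pr_pow2

theorem pp_lt {f g : α → ℕ} (hf : Primrec f) (hg : Primrec g) :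
    PrimrecPred (fun a => f a < g a) := Primrec.nat_lt.comp hf hg

theorem pp_le {f g : α → ℕ} (hf : Primrec f) (hg : Primrec g) :
    PrimrecPred (fun a => f a ≤ g a) := Primrec.nat_le.comp hf hg

theorem pp_eq {f g : α → ℕ} (hf : Primrec f) (hg : Primrec g) :
    PrimrecPred (fun a => f a = g a) := Primrec.eq.comp hf hg

theorem pp_not {p : α → Prop} (hp : PrimrecPred p) : PrimrecPred (fun a => ¬ p a) := hp.not

theorem pp_and {p q : α → Prop} (hp : PrimrecPred p) (hq : PrimrecPred q) :
    PrimrecPred (fun a => p a ∧ q a) := hp.and hq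

theorem pp_or {p q : α → Prop} (hp : PrimrecPred p) (hq : PrimrecPred q) :
    PrimrecPred (fun a => p a ∨ q a) := hp.or hq

theorem pp_imp {p q : α → Prop} (hp : PrimrecPred p) (hq : PrimrecPred q) :
    PrimrecPred (fun a => p a → q a) :=
  (hp.not.or hq).of_eq fun a => by tauto

theorem pp_ball {f : α → ℕ} {R : ℕ → α → Prop} (hf : Primrec f)
    (hR : PrimrecPred (fun p : ℕ × α => R p.1 p.2)) :
    PrimrecPred (fun a => ∀ x, x < f a → R x a) := by
  have h : PrimrecRel (fun (L : List ℕ) (b : α) => ∀ a ∈ L, R a b) :=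
    PrimrecRel.forall_mem_list hR
  have h2 : PrimrecPred (fun a => ∀ x ∈ List.range (f a), R x a) :=
    PrimrecRel.comp h (Primrec.list_range.comp hf) Primrec.id
  exact h2.of_eq fun a => by simp

theorem pp_bex {f : α → ℕ} {R : ℕ → α → Prop} (hf : Primrec f)
    (hR : PrimrecPred (fun p : ℕ × α => R p.1 p.2)) :
    PrimrecPred (fun a => ∃ x, x < f a ∧ R x a) := by
  have h : PrimrecRel (fun (L : List ℕ) (b : α) => ∃ a ∈ L, R a b) :=
    PrimrecRel.exists_mem_list hR
  have h2 : PrimrecPred (fun a => ∃ x ∈ List.range (f a), R x a) :=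
    PrimrecRel.comp h (Primrec.list_range.comp hf) Primrec.id
  exact h2.of_eq fun a => by simp

/-- Membership of a pair in a relation stored as the bits of a number. -/
def mem (P a b : ℕ) : Prop := P / 2 ^ Nat.pair a b % 2 = 1

theorem pp_mem {P f g : α → ℕ} (hP : Primrec P) (hf : Primrec f) (hg : Primrec g) :
    PrimrecPred (fun a => mem (P a) (f a) (g a)) := by
  unfold mem
  exact pp_eq (by fun_prop) (by fun_prop)

/-- Every property of the indices below `M` is the bit pattern of a number below `2 ^ M`. -/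
theorem exists_bits (p : ℕ → Prop) (M : ℕ) :
    ∃ P < 2 ^ M, ∀ i < M, (P / 2 ^ i % 2 = 1 ↔ p i) := by
  classical
  induction M with
  | zero => exact ⟨0, by simp, fun i hi => absurd hi (Nat.not_lt_zero i)⟩
  | succ M ih =>
      obtain ⟨P, hP, h⟩ := ih
      by_cases hp : p M
      · refine ⟨P + 2 ^ M, by rw [pow_succ]; omega, fun i hi => ?_⟩
        rcases Nat.lt_succ_iff_lt_or_eq.1 hi with hi | rfl
        · rw [← h i hi]
          have hM : 2 ^ M = 2 ^ i * (2 * 2 ^ (M - i - 1)) := by
            rw [← pow_succ', ← pow_add]; congr 1; omega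
          rw [hM, Nat.add_mul_div_left _ _ (by positivity)]
          omega
        · have h2 : (P + 2 ^ i) / 2 ^ i = 1 := by
            rw [Nat.add_div_right _ (by positivity), Nat.div_eq_of_lt hP]
          simp [h2, hp]
      · refine ⟨P, by rw [pow_succ]; omega, fun i hi => ?_⟩
        rcases Nat.lt_succ_iff_lt_or_eq.1 hi with hi | rfl
        · exact h i hi
        · rw [Nat.div_eq_of_lt hP]; simp [hp]

theorem pair_lt {N a b : ℕ} (ha : a < N) (hb : b < N) : Nat.pair a b < N * N := by
  have h := Nat.pair_lt_max_add_one_sq a b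
  have h2 : max a b + 1 ≤ N := by omega
  calc Nat.pair a b < (max a b + 1) ^ 2 := h
    _ ≤ N ^ 2 := Nat.pow_le_pow_left h2 2
    _ = N * N := by ring

/-- Every binary relation on the numbers below `N` is stored in a number below `2 ^ (N * N)`. -/
theorem exists_rel (N : ℕ) (R : ℕ → ℕ → Prop) :
    ∃ P < 2 ^ (N * N), ∀ a < N, ∀ b < N, (mem P a b ↔ R a b) := by
  obtain ⟨P, hP, h⟩ := exists_bits (fun i => R i.unpair.1 i.unpair.2) (N * N)
  refine ⟨P, hP, fun a ha b hb => ?_⟩
  have := h (Nat.pair a b) (pair_lt ha hb)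
  simpa [mem] using this

end Pool.Agent.H557R2.Nf
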