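import Pool.Agent.H557R2.Nf.Rel
import Pool.Agent.Results.MP_a981ee_lc.Confluence

/-!
# Codes of terms, and the bounded relations on terms
-/

namespace Pool.Agent.H557R2.Nf

open Pool.Agent.Results.MP_a981ee_lc.Confluence Relation

/-- The code of a term. -/
def enc : Term ℕ → ℕ
  | .I => 0
  | .K => 2
  | .S => 4
  | .D => 6
  | .D1 => 8
  | .D2 => 10
  | .var n => 2 * n + 12
  | .app s t => ap (enc s) (enc t)

theorem ap_inj {a b c d : ℕ} (h : ap a b = ap c d) : a = c ∧ b = d := by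
  unfold ap at h
  have h2 : Nat.pair a b = Nat.pair c d := by omega
  exact Nat.pair_eq_pair.1 h2

theorem enc_inj : ∀ {s t : Term ℕ}, enc s = enc t → s = t := by
  intro s
  induction s with
  | app s1 s2 ih1 ih2 =>
      intro t h
      cases t with
      | app t1 t2 =>
          obtain ⟨h1, h2⟩ := ap_inj h
          rw [ih1 h1, ih2 h2]
      | _ => simp only [enc, ap] at h; omega
  | var n =>
      intro t h
      cases t with
      | var m => simp only [enc] at h; congr 1; omega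
      | _ => simp only [enc, ap] at h; omega
  | I => intro t h; cases t <;> first | rfl | (simp only [enc, ap] at h; omega)
  | K => intro t h; cases t <;> first | rfl | (simp only [enc, ap] at h; omega)
  | S => intro t h; cases t <;> first | rfl | (simp only [enc, ap] at h; omega)
  | D => intro t h; cases t <;> first | rfl | (simp only [enc, ap] at h; omega)
  | D1 => intro t h; cases t <;> first | rfl | (simp only [enc, ap] at h; omega)
  | D2 => intro t h; cases t <;> first | rfl | (simp only [enc, ap] at h; omega)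

theorem enc_surj (n : ℕ) : ∃ t, enc t = n := by
  induction n using Nat.strong_induction_on with
  | _ n ih =>
      rcases Nat.even_or_odd' n with ⟨m, rfl | rfl⟩
      · by_cases h : m < 6
        · interval_cases m
          · exact ⟨.I, rfl⟩
          · exact ⟨.K, rfl⟩
          · exact ⟨.S, rfl⟩
          · exact ⟨.D, rfl⟩
          · exact ⟨.D1, rfl⟩
          · exact ⟨.D2, rfl⟩
        · exact ⟨.var (m - 6), by simp only [enc]; omega⟩
      · have h1 := Nat.unpair_left_le m
        have h2 := Nat.unpair_right_le m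
        obtain ⟨s, hs⟩ := ih m.unpair.1 (by omega)
        obtain ⟨t, ht⟩ := ih m.unpair.2 (by omega)
        exact ⟨.app s t, by simp [enc, ap, hs, ht]⟩

/-- The term with a given code. -/
noncomputable def dec (n : ℕ) : Term ℕ := (enc_surj n).choose

theorem enc_dec (n : ℕ) : enc (dec n) = n := (enc_surj n).choose_spec

theorem dec_enc (t : Term ℕ) : dec (enc t) = t := enc_inj (enc_dec _)

theorem dec_ap (a b : ℕ) : dec (ap a b) = .app (dec a) (dec b) :=
  enc_inj (by simp [enc, enc_dec])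

theorem dec_I : dec 0 = .I := enc_inj (by simp [enc, enc_dec])
theorem dec_K : dec 2 = .K := enc_inj (by simp [enc, enc_dec])
theorem dec_S : dec 4 = .S := enc_inj (by simp [enc, enc_dec])
theorem dec_D : dec 6 = .D := enc_inj (by simp [enc, enc_dec])
theorem dec_D1 : dec 8 = .D1 := enc_inj (by simp [enc, enc_dec])
theorem dec_D2 : dec 10 = .D2 := enc_inj (by simp [enc, enc_dec])

theorem lt_ap_left (a b : ℕ) : a < ap a b := by
  have := Nat.left_le_pair a b
  unfold ap; omega

theorem lt_ap_right (a b : ℕ) : b < ap a b := by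
  have := Nat.right_le_pair a b
  unfold ap; omega

theorem ap_mono {a b c d : ℕ} (h1 : a ≤ c) (h2 : b ≤ d) : ap a b ≤ ap c d := by
  unfold ap
  have h3 : Nat.pair a b ≤ Nat.pair c d := by
    rcases Nat.lt_or_eq_of_le h1 with h1 | rfl
    · rcases Nat.lt_or_eq_of_le h2 with h2 | rfl
      · exact le_of_lt (lt_trans (Nat.pair_lt_pair_left b h1) (Nat.pair_lt_pair_right c h2))
      · exact le_of_lt (Nat.pair_lt_pair_left b h1)
    · rcases Nat.lt_or_eq_of_le h2 with h2 | rfl
      · exact le_of_lt (Nat.pair_lt_pair_right a h2)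
      · exact le_rfl
  omega

/-- The equational theory restricted to the terms with codes below `N`. -/
inductive EB (N : ℕ) : Term ℕ → Term ℕ → Prop
  | refl (s : Term ℕ) : enc s < N → EB N s s
  | symm {s t : Term ℕ} : EB N s t → EB N t s
  | trans {s t u : Term ℕ} : EB N s t → EB N t u → EB N s u
  | congr {s s' t t' : Term ℕ} : EB N s s' → EB N t t' → enc (.app s t) < N →
      enc (.app s' t') < N → EB N (.app s t) (.app s' t')
  | axI (x : Term ℕ) : enc (.app .I x) < N → EB N (.app .I x) x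
  | axK (x y : Term ℕ) : enc (.app (.app .K x) y) < N → EB N (.app (.app .K x) y) x
  | axS (x y z : Term ℕ) : enc (.app (.app (.app .S x) y) z) < N →
      enc (.app (.app x z) (.app y z)) < N →
      EB N (.app (.app (.app .S x) y) z) (.app (.app x z) (.app y z))
  | ax1 (x y : Term ℕ) : enc (.app .D1 (.app (.app .D x) y)) < N →
      EB N (.app .D1 (.app (.app .D x) y)) x
  | ax2 (x y : Term ℕ) : enc (.app .D2 (.app (.app .D x) y)) < N →
      EB N (.app .D2 (.app (.app .D x) y)) y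
  | axD (x : Term ℕ) : enc (.app (.app .D (.app .D1 x)) (.app .D2 x)) < N →
      EB N (.app (.app .D (.app .D1 x)) (.app .D2 x)) x

/-- The reduction preorder restricted to the terms with codes below `N`. -/
inductive RB (N : ℕ) : Term ℕ → Term ℕ → Prop
  | refl (s : Term ℕ) : enc s < N → RB N s s
  | trans {s t u : Term ℕ} : RB N s t → RB N t u → RB N s u
  | congr {s s' t t' : Term ℕ} : RB N s s' → RB N t t' → enc (.app s t) < N →
      enc (.app s' t') < N → RB N (.app s t) (.app s' t')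
  | axI (x : Term ℕ) : enc (.app .I x) < N → RB N (.app .I x) x
  | axK (x y : Term ℕ) : enc (.app (.app .K x) y) < N → RB N (.app (.app .K x) y) x
  | axS (x y z : Term ℕ) : enc (.app (.app (.app .S x) y) z) < N →
      enc (.app (.app x z) (.app y z)) < N →
      RB N (.app (.app (.app .S x) y) z) (.app (.app x z) (.app y z))
  | ax1 (x y : Term ℕ) : enc (.app .D1 (.app (.app .D x) y)) < N →
      RB N (.app .D1 (.app (.app .D x) y)) x
  | ax2 (x y : Term ℕ) : enc (.app .D2 (.app (.app .D x) y)) < N →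
      RB N (.app .D2 (.app (.app .D x) y)) y
  | axL (x y : Term ℕ) : enc (.app (.app .D (.app .D1 x)) (.app .D2 y)) < N → EB N x y →
      RB N (.app (.app .D (.app .D1 x)) (.app .D2 y)) x
  | axR (x y : Term ℕ) : enc (.app (.app .D (.app .D1 x)) (.app .D2 y)) < N → EB N x y →
      RB N (.app (.app .D (.app .D1 x)) (.app .D2 y)) y

theorem enc_left (s t : Term ℕ) : enc s < enc (.app s t) := lt_ap_left _ _
theorem enc_right (s t : Term ℕ) : enc t < enc (.app s t) := lt_ap_right _ _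

theorem EB.bnd {N : ℕ} {s t : Term ℕ} (h : EB N s t) : enc s < N ∧ enc t < N := by
  induction h with
  | refl s h => exact ⟨h, h⟩
  | symm _ ih => exact ih.symm
  | trans _ _ ih1 ih2 => exact ⟨ih1.1, ih2.2⟩
  | congr _ _ h1 h2 _ _ => exact ⟨h1, h2⟩
  | axI x h => exact ⟨h, (enc_right _ _).trans h⟩
  | axK x y h => exact ⟨h, (enc_right _ _).trans ((enc_left _ _).trans h)⟩
  | axS x y z h1 h2 => exact ⟨h1, h2⟩
  | ax1 x y h => exact ⟨h, (enc_right _ _).trans ((enc_left _ _).trans ((enc_right _ _).trans h))⟩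
  | ax2 x y h => exact ⟨h, (enc_right _ _).trans ((enc_right _ _).trans h)⟩
  | axD x h => exact ⟨h, (enc_right _ _).trans ((enc_right _ _).trans h)⟩

theorem RB.bnd {N : ℕ} {s t : Term ℕ} (h : RB N s t) : enc s < N ∧ enc t < N := by
  induction h with
  | refl s h => exact ⟨h, h⟩
  | trans _ _ ih1 ih2 => exact ⟨ih1.1, ih2.2⟩
  | congr _ _ h1 h2 _ _ => exact ⟨h1, h2⟩
  | axI x h => exact ⟨h, (enc_right _ _).trans h⟩
  | axK x y h => exact ⟨h, (enc_right _ _).trans ((enc_left _ _).trans h)⟩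
  | axS x y z h1 h2 => exact ⟨h1, h2⟩
  | ax1 x y h => exact ⟨h, (enc_right _ _).trans ((enc_left _ _).trans ((enc_right _ _).trans h))⟩
  | ax2 x y h => exact ⟨h, (enc_right _ _).trans ((enc_right _ _).trans h)⟩
  | axL x y h _ => exact ⟨h, (enc_right _ _).trans
      ((enc_right _ _).trans ((enc_left _ _).trans h))⟩
  | axR x y h _ => exact ⟨h, (enc_right _ _).trans ((enc_right _ _).trans h)⟩

theorem EB.mono {N M : ℕ} (hNM : N ≤ M) {s t : Term ℕ} (h : EB N s t) : EB M s t := by
  induction h with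
  | refl s h => exact .refl s (h.trans_le hNM)
  | symm _ ih => exact ih.symm
  | trans _ _ ih1 ih2 => exact ih1.trans ih2
  | congr _ _ h1 h2 ih1 ih2 => exact .congr ih1 ih2 (h1.trans_le hNM) (h2.trans_le hNM)
  | axI x h => exact .axI x (h.trans_le hNM)
  | axK x y h => exact .axK x y (h.trans_le hNM)
  | axS x y z h1 h2 => exact .axS x y z (h1.trans_le hNM) (h2.trans_le hNM)
  | ax1 x y h => exact .ax1 x y (h.trans_le hNM)
  | ax2 x y h => exact .ax2 x y (h.trans_le hNM)
  | axD x h => exact .axD x (h.trans_le hNM)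

theorem RB.mono {N M : ℕ} (hNM : N ≤ M) {s t : Term ℕ} (h : RB N s t) : RB M s t := by
  induction h with
  | refl s h => exact .refl s (h.trans_le hNM)
  | trans _ _ ih1 ih2 => exact ih1.trans ih2
  | congr _ _ h1 h2 ih1 ih2 => exact .congr ih1 ih2 (h1.trans_le hNM) (h2.trans_le hNM)
  | axI x h => exact .axI x (h.trans_le hNM)
  | axK x y h => exact .axK x y (h.trans_le hNM)
  | axS x y z h1 h2 => exact .axS x y z (h1.trans_le hNM) (h2.trans_le hNM)
  | ax1 x y h => exact .ax1 x y (h.trans_le hNM)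
  | ax2 x y h => exact .ax2 x y (h.trans_le hNM)
  | axL x y h h' => exact .axL x y (h.trans_le hNM) (h'.mono hNM)
  | axR x y h h' => exact .axR x y (h.trans_le hNM) (h'.mono hNM)

theorem EB.toE {N : ℕ} {s t : Term ℕ} (h : EB N s t) : E s t := by
  induction h with
  | refl s _ => exact .refl s
  | symm _ ih => exact ih.symm
  | trans _ _ ih1 ih2 => exact ih1.trans ih2
  | congr _ _ _ _ ih1 ih2 => exact .congr ih1 ih2
  | axI x _ => exact .axI x
  | axK x y _ => exact .axK x y
  | axS x y z _ _ => exact .axS x y z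
  | ax1 x y _ => exact .ax1 x y
  | ax2 x y _ => exact .ax2 x y
  | axD x _ => exact .axD x

/-- Every equation is provable within some bound. -/
theorem E_bounded {s t : Term ℕ} (h : E s t) : ∃ N, EB N s t := by
  induction h with
  | refl s => exact ⟨_, .refl s (Nat.lt_succ_self _)⟩
  | symm _ ih => obtain ⟨N, h⟩ := ih; exact ⟨N, h.symm⟩
  | trans _ _ ih1 ih2 =>
      obtain ⟨N, h⟩ := ih1
      obtain ⟨M, h'⟩ := ih2
      exact ⟨max N M, (h.mono (le_max_left _ _)).trans (h'.mono (le_max_right _ _))⟩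
  | @congr s s' t t' _ _ ih1 ih2 =>
      obtain ⟨N, h⟩ := ih1
      obtain ⟨M, h'⟩ := ih2
      refine ⟨max (max N M) (max (enc (.app s t) + 1) (enc (.app s' t') + 1)), ?_⟩
      refine .congr (h.mono ?_) (h'.mono ?_) ?_ ?_
      · exact (le_max_left _ _).trans (le_max_left _ _)
      · exact (le_max_right _ _).trans (le_max_left _ _)
      · exact Nat.lt_of_succ_le ((le_max_left _ _).trans (le_max_right _ _))
      · exact Nat.lt_of_succ_le ((le_max_right _ _).trans (le_max_right _ _))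
  | axI x => exact ⟨_, .axI x (Nat.lt_succ_self _)⟩
  | axK x y => exact ⟨_, .axK x y (Nat.lt_succ_self _)⟩
  | axS x y z =>
      refine ⟨max _ _ + 1, .axS x y z (Nat.lt_succ_of_le (le_max_left _ _))
        (Nat.lt_succ_of_le (le_max_right _ _))⟩
  | ax1 x y => exact ⟨_, .ax1 x y (Nat.lt_succ_self _)⟩
  | ax2 x y => exact ⟨_, .ax2 x y (Nat.lt_succ_self _)⟩
  | axD x => exact ⟨_, .axD x (Nat.lt_succ_self _)⟩

/-! ### The two relations agree with their arithmetical versions -/

theorem EB.toEN {N : ℕ} {s t : Term ℕ} (h : EB N s t) : EN N (enc s) (enc t) := by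
  refine ⟨h.bnd.1, h.bnd.2, fun P _ hb hr hs => ?_⟩
  induction h with
  | refl s h => exact hb.1 _ h
  | symm h ih => exact hs.1 _ h.bnd.1 _ h.bnd.2 ih
  | trans h1 h2 ih1 ih2 => exact hb.2.1 _ h1.bnd.1 _ h1.bnd.2 _ h2.bnd.2 ih1 ih2
  | congr h1 h2 h3 h4 ih1 ih2 =>
      exact hb.2.2 _ h1.bnd.1 _ h1.bnd.2 _ h2.bnd.1 _ h2.bnd.2 ih1 ih2 h3 h4
  | axI x h => exact hr.1 _ (EB.axI x h).bnd.2 h
  | axK x y h => exact hr.2.1 _ (EB.axK x y h).bnd.2 _ ((enc_right _ _).trans h) h
  | axS x y z h1 h2 =>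
      exact hr.2.2.1 _ ((enc_left _ _).trans ((enc_left _ _).trans h2)) _
        ((enc_left _ _).trans ((enc_right _ _).trans h2)) _ ((enc_right _ _).trans h1) h1 h2
  | ax1 x y h =>
      exact hr.2.2.2.1 _ (EB.ax1 x y h).bnd.2 _ ((enc_right _ _).trans ((enc_right _ _).trans h)) h
  | ax2 x y h =>
      exact hr.2.2.2.2 _ ((enc_right _ _).trans ((enc_left _ _).trans ((enc_right _ _).trans h))) _
        (EB.ax2 x y h).bnd.2 h
  | axD x h => exact hs.2 _ (EB.axD x h).bnd.2 h

theorem EN.toEB {N a b : ℕ} (h : EN N a b) : EB N (dec a) (dec b) := by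
  obtain ⟨ha, hb, h⟩ := h
  obtain ⟨P, hP, hm⟩ := exists_rel N (fun a b => EB N (dec a) (dec b))
  have hd : ∀ {x}, x < N → enc (dec x) < N := fun {x} hx => by rwa [enc_dec]
  refine (hm a ha b hb).1 (h P hP ⟨?_, ?_, ?_⟩ ⟨?_, ?_, ?_, ?_, ?_⟩ ⟨?_, ?_⟩)
  · exact fun a ha => (hm a ha a ha).2 (.refl _ (hd ha))
  · intro a ha b hb c hc h1 h2
    exact (hm a ha c hc).2 (((hm a ha b hb).1 h1).trans ((hm b hb c hc).1 h2))
  · intro a ha a' ha' b hb b' hb' h1 h2 h3 h4
    rw [hm _ h3 _ h4, dec_ap, dec_ap]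
    refine .congr ((hm a ha a' ha').1 h1) ((hm b hb b' hb').1 h2) ?_ ?_
    · rw [← dec_ap]; exact hd h3
    · rw [← dec_ap]; exact hd h4
  · intro x hx h1
    have h2 := hd h1
    rw [hm _ h1 _ hx]
    simp only [dec_ap, dec_I] at h2 ⊢
    exact .axI _ h2
  · intro x hx y hy h1
    have h2 := hd h1
    rw [hm _ h1 _ hx]
    simp only [dec_ap, dec_K] at h2 ⊢
    exact .axK _ _ h2
  · intro x hx y hy z hz h1 h1'
    have h2 := hd h1
    have h3 := hd h1'
    rw [hm _ h1 _ h1']
    simp only [dec_ap, dec_S] at h2 h3 ⊢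
    exact .axS _ _ _ h2 h3
  · intro x hx y hy h1
    have h2 := hd h1
    rw [hm _ h1 _ hx]
    simp only [dec_ap, dec_D, dec_D1] at h2 ⊢
    exact .ax1 _ _ h2
  · intro x hx y hy h1
    have h2 := hd h1
    rw [hm _ h1 _ hy]
    simp only [dec_ap, dec_D, dec_D2] at h2 ⊢
    exact .ax2 _ _ h2
  · intro a ha b hb h1
    exact (hm b hb a ha).2 ((hm a ha b hb).1 h1).symm
  · intro x hx h1
    have h2 := hd h1
    rw [hm _ h1 _ hx]
    simp only [dec_ap, dec_D, dec_D1, dec_D2] at h2 ⊢
    exact .axD _ h2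

theorem EN_iff {N : ℕ} {s t : Term ℕ} : EN N (enc s) (enc t) ↔ EB N s t := by
  constructor
  · intro h
    have := h.toEB
    rwa [dec_enc, dec_enc] at this
  · exact EB.toEN

theorem RB.toRN {N : ℕ} {s t : Term ℕ} (h : RB N s t) : RN N (enc s) (enc t) := by
  refine ⟨h.bnd.1, h.bnd.2, fun P _ hb hr hs => ?_⟩
  induction h with
  | refl s h => exact hb.1 _ h
  | trans h1 h2 ih1 ih2 => exact hb.2.1 _ h1.bnd.1 _ h1.bnd.2 _ h2.bnd.2 ih1 ih2
  | congr h1 h2 h3 h4 ih1 ih2 =>
      exact hb.2.2 _ h1.bnd.1 _ h1.bnd.2 _ h2.bnd.1 _ h2.bnd.2 ih1 ih2 h3 h4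
  | axI x h => exact hr.1 _ (EB.axI x h).bnd.2 h
  | axK x y h => exact hr.2.1 _ (EB.axK x y h).bnd.2 _ ((enc_right _ _).trans h) h
  | axS x y z h1 h2 =>
      exact hr.2.2.1 _ ((enc_left _ _).trans ((enc_left _ _).trans h2)) _
        ((enc_left _ _).trans ((enc_right _ _).trans h2)) _ ((enc_right _ _).trans h1) h1 h2
  | ax1 x y h =>
      exact hr.2.2.2.1 _ (EB.ax1 x y h).bnd.2 _ ((enc_right _ _).trans ((enc_right _ _).trans h)) h
  | ax2 x y h =>
      exact hr.2.2.2.2 _ ((enc_right _ _).trans ((enc_left _ _).trans ((enc_right _ _).trans h))) _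
        (EB.ax2 x y h).bnd.2 h
  | axL x y h he => exact (hs _ he.bnd.1 _ he.bnd.2 h he.toEN).1
  | axR x y h he => exact (hs _ he.bnd.1 _ he.bnd.2 h he.toEN).2

theorem RN.toRB {N a b : ℕ} (h : RN N a b) : RB N (dec a) (dec b) := by
  obtain ⟨ha, hb, h⟩ := h
  obtain ⟨P, hP, hm⟩ := exists_rel N (fun a b => RB N (dec a) (dec b))
  have hd : ∀ {x}, x < N → enc (dec x) < N := fun {x} hx => by rwa [enc_dec]
  refine (hm a ha b hb).1 (h P hP ⟨?_, ?_, ?_⟩ ⟨?_, ?_, ?_, ?_, ?_⟩ ?_)
  · exact fun a ha => (hm a ha a ha).2 (.refl _ (hd ha))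
  · intro a ha b hb c hc h1 h2
    exact (hm a ha c hc).2 (((hm a ha b hb).1 h1).trans ((hm b hb c hc).1 h2))
  · intro a ha a' ha' b hb b' hb' h1 h2 h3 h4
    rw [hm _ h3 _ h4, dec_ap, dec_ap]
    refine .congr ((hm a ha a' ha').1 h1) ((hm b hb b' hb').1 h2) ?_ ?_
    · rw [← dec_ap]; exact hd h3
    · rw [← dec_ap]; exact hd h4
  · intro x hx h1
    have h2 := hd h1
    rw [hm _ h1 _ hx]
    simp only [dec_ap, dec_I] at h2 ⊢
    exact .axI _ h2
  · intro x hx y hy h1
    have h2 := hd h1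
    rw [hm _ h1 _ hx]
    simp only [dec_ap, dec_K] at h2 ⊢
    exact .axK _ _ h2
  · intro x hx y hy z hz h1 h1'
    have h2 := hd h1
    have h3 := hd h1'
    rw [hm _ h1 _ h1']
    simp only [dec_ap, dec_S] at h2 h3 ⊢
    exact .axS _ _ _ h2 h3
  · intro x hx y hy h1
    have h2 := hd h1
    rw [hm _ h1 _ hx]
    simp only [dec_ap, dec_D, dec_D1] at h2 ⊢
    exact .ax1 _ _ h2
  · intro x hx y hy h1
    have h2 := hd h1
    rw [hm _ h1 _ hy]
    simp only [dec_ap, dec_D, dec_D2] at h2 ⊢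
    exact .ax2 _ _ h2
  · intro x hx y hy h1 he
    have h2 := hd h1
    rw [hm _ h1 _ hx, hm _ h1 _ hy]
    simp only [dec_ap, dec_D, dec_D1, dec_D2] at h2 ⊢
    exact ⟨.axL _ _ h2 he.toEB, .axR _ _ h2 he.toEB⟩

theorem RN_iff {N : ℕ} {s t : Term ℕ} : RN N (enc s) (enc t) ↔ RB N s t := by
  constructor
  · intro h
    have := h.toRB
    rwa [dec_enc, dec_enc] at this
  · exact RB.toRN

end Pool.Agent.H557R2.Nf
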