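import Pool.Agent.H557R2.Nf.Code

/-!
# The strategy
-/

namespace Pool.Agent.H557R2.Nf

open Pool.Agent.Results.MP_a981ee_lc.Confluence Relation

/-- A term with no reduct. -/
def NF (t : Term ℕ) : Prop := ∀ u, ¬ Step E t u

/-! ### Sizes and bounds -/

/-- The number of atoms of a term. -/
def sz : Term ℕ → ℕ
  | .app s t => sz s + sz t
  | _ => 1

/-- The largest code of an atom of a term. -/
def at' : Term ℕ → ℕ
  | .app s t => max (at' s) (at' t)
  | .var n => 2 * n + 12
  | .I => 0
  | .K => 2
  | .S => 4
  | .D => 6
  | .D1 => 8
  | .D2 => 10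

theorem sz_pos (t : Term ℕ) : 0 < sz t := by
  induction t with
  | app s t ih1 ih2 => simp only [sz]; omega
  | _ => simp [sz]

theorem sz_le (t : Term ℕ) : sz t ≤ enc t + 1 := by
  induction t with
  | app s t ih1 ih2 =>
      simp only [sz, enc, ap]
      have h1 := Nat.left_le_pair (enc s) (enc t)
      have h2 := Nat.right_le_pair (enc s) (enc t)
      omega
  | _ => simp [sz]

theorem at_le (t : Term ℕ) : at' t ≤ enc t := by
  induction t with
  | app s t ih1 ih2 =>
      simp only [at', enc, ap]
      have h1 := Nat.left_le_pair (enc s) (enc t)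
      have h2 := Nat.right_le_pair (enc s) (enc t)
      omega
  | _ => simp [at', enc]

theorem step_sz {P : Term ℕ → Term ℕ → Prop} {s t : Term ℕ} (h : Step P s t) :
    sz t ≤ 2 * sz s ∧ at' t ≤ at' s := by
  induction h with
  | left s s' t _ ih => simp only [sz, at']; omega
  | right s t t' _ ih => simp only [sz, at']; omega
  | _ => simp only [sz, at']; omega

theorem le_grow (x : ℕ) : x ≤ grow x := by
  have := Nat.left_le_pair x x
  unfold grow ap; omega

theorem grow_mono {x y : ℕ} (h : x ≤ y) : grow x ≤ grow y := ap_mono h h

theorem iter_mono {a b x y : ℕ} (hab : a ≤ b) (hxy : x ≤ y) : grow^[a] x ≤ grow^[b] y := by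
  obtain ⟨c, rfl⟩ := Nat.exists_eq_add_of_le hab
  have h1 : grow^[a] x ≤ grow^[a] y := by
    clear hab
    induction a with
    | zero => simpa using hxy
    | succ a ih => rw [Function.iterate_succ_apply', Function.iterate_succ_apply']; exact grow_mono ih
  refine h1.trans ?_
  clear h1 hxy hab
  induction c with
  | zero => exact le_rfl
  | succ c ih =>
      rw [← Nat.add_assoc, Function.iterate_succ_apply']
      exact ih.trans (le_grow _)

theorem enc_le_grow (t : Term ℕ) : enc t ≤ grow^[sz t] (at' t) := by
  induction t with
  | app s t ih1 ih2 =>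
      simp only [enc, sz, at']
      have hs := sz_pos s
      have ht := sz_pos t
      have h1 : enc s ≤ grow^[sz s + sz t - 1] (max (at' s) (at' t)) :=
        ih1.trans (iter_mono (by omega) (le_max_left _ _))
      have h2 : enc t ≤ grow^[sz s + sz t - 1] (max (at' s) (at' t)) :=
        ih2.trans (iter_mono (by omega) (le_max_right _ _))
      refine (ap_mono h1 h2).trans ?_
      have : sz s + sz t = (sz s + sz t - 1) + 1 := by omega
      conv_rhs => rw [this]
      rw [Function.iterate_succ_apply']
      exact le_rfl
  | _ => simpa [enc, sz, at'] using le_grow _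

theorem le_B (N : ℕ) : N < B N := by
  unfold B
  have := iter_mono (a := 0) (b := 2 * N + 2) (x := N) (y := N + 12) (by omega) (by omega)
  simp only [Function.iterate_zero, id] at this
  omega

theorem step_lt_B {P : Term ℕ → Term ℕ → Prop} {s t : Term ℕ} (h : Step P s t) {N : ℕ}
    (hs : enc s < N) : enc t < B N := by
  obtain ⟨h1, h2⟩ := step_sz h
  have h3 := sz_le s
  have h4 := at_le s
  have h5 := enc_le_grow t
  have h6 : grow^[sz t] (at' t) ≤ grow^[2 * N + 2] (N + 12) := iter_mono (by omega) (by omega)
  unfold B
  omega

theorem step_ne {P : Term ℕ → Term ℕ → Prop} {s t : Term ℕ} (h : Step P s t) : s ≠ t := by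
  induction h with
  | rule1 x => intro h; have := congrArg sz h; simp only [sz] at this; omega
  | rule2 x y =>
      intro h; have := congrArg sz h; simp only [sz] at this; have := sz_pos y; omega
  | rule3 x y z =>
      intro h
      simp only [Term.app.injEq] at h
      have := congrArg sz h.2
      simp only [sz] at this
      have := sz_pos y
      omega
  | rule4 x y => intro h; have := congrArg sz h; simp only [sz] at this; omega
  | rule5 x y => intro h; have := congrArg sz h; simp only [sz] at this; omega
  | rule6 x y _ => intro h; have := congrArg sz h; simp only [sz] at this; omega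
  | rule7 x y _ => intro h; have := congrArg sz h; simp only [sz] at this; omega
  | left s s' t _ ih => intro h; simp only [Term.app.injEq] at h; exact ih h.1
  | right s t t' _ ih => intro h; simp only [Term.app.injEq] at h; exact ih h.2

/-! ### Bounded reduction and reduction -/

/-- A step whose conditions hold syntactically. -/
abbrev St0 : Term ℕ → Term ℕ → Prop := Step (fun x y => x = y)

theorem St0.toStep {s t : Term ℕ} (h : St0 s t) : Step E s t :=
  step_mono (fun x y (h : x = y) => h ▸ E.refl x) h

theorem RB.of_st0 {N : ℕ} {s t : Term ℕ} (h : St0 s t) (hs : enc s < N) (ht : enc t < N) :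
    RB N s t := by
  induction h with
  | rule1 x => exact .axI x hs
  | rule2 x y => exact .axK x y hs
  | rule3 x y z => exact .axS x y z hs ht
  | rule4 x y => exact .ax1 x y hs
  | rule5 x y => exact .ax2 x y hs
  | rule6 x y h => subst h; exact .axL x x hs (.refl x ht)
  | rule7 x y h => subst h; exact .axR x x hs (.refl x ht)
  | left s s' t _ ih =>
      exact .congr (ih ((enc_left _ _).trans hs) ((enc_left _ _).trans ht))
        (.refl t ((enc_right _ _).trans hs)) hs ht
  | right s t t' _ ih =>
      exact .congr (.refl s ((enc_left _ _).trans hs))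
        (ih ((enc_right _ _).trans hs) ((enc_right _ _).trans ht)) hs ht

theorem RB.toRS {N : ℕ} {s t : Term ℕ} (h : RB N s t) : RS s t := by
  induction h with
  | refl s _ => exact ReflTransGen.refl
  | trans _ _ ih1 ih2 => exact ReflTransGen.trans ih1 ih2
  | congr _ _ _ _ ih1 ih2 => exact RS.ap ih1 ih2
  | axI x _ => exact ReflTransGen.single (.rule1 x)
  | axK x y _ => exact ReflTransGen.single (.rule2 x y)
  | axS x y z _ _ => exact ReflTransGen.single (.rule3 x y z)
  | ax1 x y _ => exact ReflTransGen.single (.rule4 x y)
  | ax2 x y _ => exact ReflTransGen.single (.rule5 x y)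
  | axL x y _ h => exact ReflTransGen.single (.rule6 x y h.toE)
  | axR x y _ h => exact ReflTransGen.single (.rule7 x y h.toE)

/-- The two bounded collapses of a pair of projections. -/
theorem EB.dl {N : ℕ} {x y : Term ℕ}
    (h : enc (.app (.app .D (.app .D1 x)) (.app .D2 y)) < N) (he : EB N x y) :
    EB N (.app (.app .D (.app .D1 x)) (.app .D2 y)) x ∧
      EB N (.app (.app .D (.app .D1 x)) (.app .D2 y)) y := by
  have key : ∃ z, EB N z x ∧ EB N (.app (.app .D (.app .D1 x)) (.app .D2 y)) z := by
    rcases le_total (enc x) (enc y) with hxy | hxy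
    · refine ⟨x, .refl x he.bnd.1, ?_⟩
      have h2 : enc (.app (.app .D (.app .D1 x)) (.app .D2 x)) < N :=
        lt_of_le_of_lt (ap_mono le_rfl (ap_mono le_rfl hxy)) h
      refine .trans (.congr (.refl _ ((enc_left _ _).trans h)) ?_ h h2) (.axD x h2)
      exact .congr (.refl _ ((enc_left _ _).trans ((enc_right _ _).trans h))) he.symm
        ((enc_right _ _).trans h) ((enc_right _ _).trans h2)
    · refine ⟨y, he.symm, ?_⟩
      have h2 : enc (.app (.app .D (.app .D1 y)) (.app .D2 y)) < N :=
        lt_of_le_of_lt (ap_mono (ap_mono le_rfl (ap_mono le_rfl hxy)) le_rfl) h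
      refine .trans (.congr ?_ (.refl _ ((enc_right _ _).trans h)) h h2) (.axD y h2)
      refine .congr (.refl _ ((enc_left _ _).trans ((enc_left _ _).trans h))) ?_
        ((enc_left _ _).trans h) ((enc_left _ _).trans h2)
      exact .congr (.refl _ ((enc_left _ _).trans
        ((enc_right _ _).trans ((enc_left _ _).trans h)))) he
        ((enc_right _ _).trans ((enc_left _ _).trans h))
        ((enc_right _ _).trans ((enc_left _ _).trans h2))
  obtain ⟨z, hz, hd⟩ := key
  exact ⟨hd.trans hz, (hd.trans hz).trans he⟩

theorem RB.toEB {N : ℕ} {s t : Term ℕ} (h : RB N s t) : EB N s t := by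
  induction h with
  | refl s h => exact .refl s h
  | trans _ _ ih1 ih2 => exact ih1.trans ih2
  | congr _ _ h1 h2 ih1 ih2 => exact .congr ih1 ih2 h1 h2
  | axI x h => exact .axI x h
  | axK x y h => exact .axK x y h
  | axS x y z h1 h2 => exact .axS x y z h1 h2
  | ax1 x y h => exact .ax1 x y h
  | ax2 x y h => exact .ax2 x y h
  | axL x y h he => exact (EB.dl h he).1
  | axR x y h he => exact (EB.dl h he).2

/-! ### Normal forms -/

theorem NF.eq {t u : Term ℕ} (h : NF t) (hr : RS t u) : u = t := by
  rcases ReflTransGen.cases_head hr with h1 | ⟨c, hc, _⟩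
  · exact h1.symm
  · exact absurd hc (h c)

theorem NF.uniq {s t : Term ℕ} (hs : NF s) (ht : NF t) (h : E s t) : s = t := by
  obtain ⟨c, h1, h2⟩ := E_joinable h
  rw [← hs.eq h1, ← ht.eq h2]

theorem NF.reach {s t : Term ℕ} (ht : NF t) (h : E s t) : RS s t := by
  obtain ⟨c, h1, h2⟩ := E_joinable h
  rw [ht.eq h2] at h1
  exact h1

/-- A term with no syntactic redex is a normal form. -/
theorem nf_of_st0 : ∀ t : Term ℕ, (∀ u, ¬ St0 t u) → NF t := by
  intro t
  induction t with
  | app p q ihp ihq =>
      intro h u hu
      have hp : NF p := ihp fun v hv => h _ (.left _ _ _ hv)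
      have hq : NF q := ihq fun v hv => h _ (.right _ _ _ hv)
      have hxy : ∀ x y, E x y → p = .app .D (.app .D1 x) → q = .app .D2 y → False := by
        intro x y hE h1 h2
        subst h1 h2
        have hx : NF x := fun v hv => hp _ (.right _ _ _ (.right _ _ _ hv))
        have hy : NF y := fun v hv => hq _ (.right _ _ _ hv)
        have := hx.uniq hy hE
        subst this
        exact h _ (.rule6 x x rfl)
      cases hu with
      | rule1 x => exact h _ (.rule1 _)
      | rule2 x y => exact h _ (.rule2 _ _)
      | rule3 x y z => exact h _ (.rule3 _ _ _)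
      | rule4 x y => exact h _ (.rule4 _ _)
      | rule5 x y => exact h _ (.rule5 _ _)
      | rule6 x y hE => exact hxy _ _ hE rfl rfl
      | rule7 x y hE => exact hxy _ _ hE rfl rfl
      | left _ s' _ hs => exact hp _ hs
      | right _ _ t' hs => exact hq _ hs
  | _ => intro _ u hu; cases hu

theorem st0_of_not_nf {t : Term ℕ} (h : ¬ NF t) : ∃ u, St0 t u := by
  by_contra hc
  exact h (nf_of_st0 t fun u hu => hc ⟨u, hu⟩)

/-! ### Contexts -/

/-- Filling a context, given by the list of its frames from the hole outwards. -/
def fill : List (Bool × Term ℕ) → Term ℕ → Term ℕ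
  | [], u => u
  | (true, q) :: C, u => fill C (.app u q)
  | (false, p) :: C, u => fill C (.app p u)

theorem enc_fill (C : List (Bool × Term ℕ)) : ∀ u, C.length + enc u ≤ enc (fill C u) := by
  induction C with
  | nil => intro u; simp [fill]
  | cons f C ih =>
      intro u
      obtain ⟨b, q⟩ := f
      cases b
      · have h1 := ih (.app q u)
        have h2 := enc_right q u
        simp only [fill, List.length_cons]
        omega
      · have h1 := ih (.app u q)
        have h2 := enc_left u q
        simp only [fill, List.length_cons]
        omega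

theorem fill_mono (C : List (Bool × Term ℕ)) : ∀ {u v}, enc u ≤ enc v →
    enc (fill C u) ≤ enc (fill C v) := by
  induction C with
  | nil => intro u v h; exact h
  | cons f C ih =>
      intro u v h
      obtain ⟨b, q⟩ := f
      cases b
      · exact ih (ap_mono le_rfl h)
      · exact ih (ap_mono h le_rfl)

theorem step_fill {P : Term ℕ → Term ℕ → Prop} (C : List (Bool × Term ℕ)) :
    ∀ {u v}, Step P u v → Step P (fill C u) (fill C v) := by
  induction C with
  | nil => intro u v h; exact h
  | cons f C ih =>
      intro u v h
      obtain ⟨b, q⟩ := f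
      cases b
      · exact ih (.right _ _ _ h)
      · exact ih (.left _ _ _ h)

theorem RB_fill {N : ℕ} (C : List (Bool × Term ℕ)) : ∀ {u v}, RB N u v →
    enc (fill C u) < N → enc (fill C v) < N → RB N (fill C u) (fill C v) := by
  induction C with
  | nil => intro u v h _ _; exact h
  | cons f C ih =>
      intro u v h h1 h2
      obtain ⟨b, q⟩ := f
      cases b
      · have h3 := enc_fill C (.app q u)
        have h4 := enc_fill C (.app q v)
        simp only [fill] at h1 h2
        have h5 : enc (.app q u) < N := by omega
        have h6 : enc (.app q v) < N := by omega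
        exact ih (.congr (.refl q ((enc_left _ _).trans h5)) h h5 h6) h1 h2
      · have h3 := enc_fill C (.app u q)
        have h4 := enc_fill C (.app v q)
        simp only [fill] at h1 h2
        have h5 : enc (.app u q) < N := by omega
        have h6 : enc (.app v q) < N := by omega
        exact ih (.congr h (.refl q ((enc_right _ _).trans h5)) h5 h6) h1 h2

/-! ### The main lemma -/

/-- There is no reduct with a larger code, provably so within its own code. -/
def NoExit (t : Term ℕ) : Prop :=
  ∀ v, enc t < enc v → enc v < B (enc t + 1) → ¬ RB (enc v + 1) t v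

theorem cheap_ok {t s s' : Term ℕ} (ht : NoExit t) (h : RB (enc t + 1) t s) (hs : St0 s s') :
    RB (enc t + 1) t s' := by
  by_cases hlt : enc s' < enc t + 1
  · exact h.trans (.of_st0 hs h.bnd.2 hlt)
  · exfalso
    have h2 := h.bnd.2
    refine ht s' (by omega) (step_lt_B hs h.bnd.2) ?_
    exact (h.mono (by omega)).trans (.of_st0 hs (by omega) (by omega))

theorem key {t : Term ℕ} (ht : NoExit t) : ∀ (k : ℕ) (C : List (Bool × Term ℕ)) (u u' : Term ℕ),
    enc t + 1 ≤ C.length + k → RB (enc t + 1) t (fill C u) → Step E u u' →
    RB (enc t + 1) t (fill C u') ∧ RB (enc t + 1) u u' := by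
  intro k
  induction k with
  | zero =>
      intro C u u' hk h _
      have h1 := enc_fill C u
      have h2 := h.bnd.2
      omega
  | succ k ih =>
      intro C u u' hk h hs
      have hu : enc u < enc t + 1 := by
        have h1 := enc_fill C u
        have h2 := h.bnd.2
        omega
      have cheap : St0 u u' → RB (enc t + 1) t (fill C u') ∧ RB (enc t + 1) u u' := by
        intro hs
        have h1 := cheap_ok ht h (step_fill C hs)
        refine ⟨h1, .of_st0 hs hu ?_⟩
        have h2 := enc_fill C u'
        have h3 := h1.bnd.2
        omega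
      have path : ∀ (C' : List (Bool × Term ℕ)) (x w : Term ℕ), enc t + 1 ≤ C'.length + k →
          RB (enc t + 1) t (fill C' x) → RS x w →
          RB (enc t + 1) t (fill C' w) ∧ RB (enc t + 1) x w := by
        intro C' x w hC h1 h2
        induction h2 with
        | refl =>
            refine ⟨h1, .refl x ?_⟩
            have h2 := enc_fill C' x
            have h3 := h1.bnd.2
            omega
        | tail _ h3 ih2 =>
            obtain ⟨h4, h5⟩ := ih C' _ _ hC ih2.1 h3
            exact ⟨h4, ih2.2.trans h5⟩
      have cnd : ∀ x y, E x y → u = .app (.app .D (.app .D1 x)) (.app .D2 y) →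
          EB (enc t + 1) x y := by
        intro x y hE hu2
        subst hu2
        obtain ⟨w, hx, hy⟩ := E_joinable hE
        obtain ⟨h1, h2⟩ := path ((false, .D1) :: (false, .D) :: (true, .app .D2 y) :: C) x w
          (by simp only [List.length_cons]; omega) h hx
        obtain ⟨h3, h4⟩ := path ((false, .D2) :: (false, .app .D (.app .D1 w)) :: C) y w
          (by simp only [List.length_cons]; omega) h1 hy
        exact h2.toEB.trans h4.toEB.symm
      cases hs with
      | rule1 x => exact cheap (.rule1 _)
      | rule2 x y => exact cheap (.rule2 _ _)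
      | rule3 x y z => exact cheap (.rule3 _ _ _)
      | rule4 x y => exact cheap (.rule4 _ _)
      | rule5 x y => exact cheap (.rule5 _ _)
      | rule6 _ y hE =>
          have he := cnd _ _ hE rfl
          have h1 := RB.axL _ _ hu he
          have h2 : enc u' ≤ enc (.app (.app .D (.app .D1 u')) (.app .D2 y)) :=
            le_of_lt ((enc_right _ _).trans ((enc_right _ _).trans (enc_left _ _)))
          exact ⟨h.trans (RB_fill C h1 h.bnd.2 (lt_of_le_of_lt (fill_mono C h2) h.bnd.2)), h1⟩
      | rule7 x _ hE =>
          have he := cnd _ _ hE rfl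
          have h1 := RB.axR _ _ hu he
          have h2 : enc u' ≤ enc (.app (.app .D (.app .D1 x)) (.app .D2 u')) :=
            le_of_lt ((enc_right _ _).trans (enc_right _ _))
          exact ⟨h.trans (RB_fill C h1 h.bnd.2 (lt_of_le_of_lt (fill_mono C h2) h.bnd.2)), h1⟩
      | left p p' q hp =>
          obtain ⟨h1, h2⟩ := ih ((true, q) :: C) p p' (by simp only [List.length_cons]; omega)
            h hp
          refine ⟨h1, .congr h2 (.refl q ((enc_right _ _).trans hu)) hu ?_⟩
          have h3 := enc_fill C (.app p' q)
          have h4 := h1.bnd.2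
          simp only [fill] at h4
          omega
      | right p q q' hq =>
          obtain ⟨h1, h2⟩ := ih ((false, p) :: C) q q' (by simp only [List.length_cons]; omega)
            h hq
          refine ⟨h1, .congr (.refl p ((enc_left _ _).trans hu)) h2 hu ?_⟩
          have h3 := enc_fill C (.app p q')
          have h4 := h1.bnd.2
          simp only [fill] at h4
          omega

/-- Without an exit, all reducts are found within the bound. -/
theorem all_found {t : Term ℕ} (ht : NoExit t) {s : Term ℕ} (h : RS t s) :
    RB (enc t + 1) t s := by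
  induction h with
  | refl => exact .refl t (Nat.lt_succ_self _)
  | tail _ h1 ih => exact (key ht (enc t + 1) [] _ _ (by simp) ih h1).1

end Pool.Agent.H557R2.Nf
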