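import Pool.Agent.H557R2.Nf.Bnd

/-!
# The bounded equational theory and the bounded reduction relation, on codes
-/

namespace Pool.Agent.H557R2.Nf

variable {α : Type} [Primcodable α]

/-- The code of an application. -/
def ap (a b : ℕ) : ℕ := 2 * Nat.pair a b + 1

theorem pr_ap {f g : α → ℕ} (hf : Primrec f) (hg : Primrec g) :
    Primrec (fun a => ap (f a) (g a)) := by
  unfold ap
  fun_prop

attribute [fun_prop] pr_ap

/-- Reflexive, transitive, compatible with application, all below `N`. -/
def base (N P : ℕ) : Prop :=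
  (∀ a, a < N → mem P a a) ∧
  (∀ a, a < N → ∀ b, b < N → ∀ c, c < N → mem P a b → mem P b c → mem P a c) ∧
  (∀ a, a < N → ∀ a', a' < N → ∀ b, b < N → ∀ b', b' < N → mem P a a' → mem P b b' →
    ap a b < N → ap a' b' < N → mem P (ap a b) (ap a' b'))

/-- The unconditional rules. -/
def rules (N P : ℕ) : Prop :=
  (∀ x, x < N → ap 0 x < N → mem P (ap 0 x) x) ∧
  (∀ x, x < N → ∀ y, y < N → ap (ap 2 x) y < N → mem P (ap (ap 2 x) y) x) ∧
  (∀ x, x < N → ∀ y, y < N → ∀ z, z < N → ap (ap (ap 4 x) y) z < N →
    ap (ap x z) (ap y z) < N → mem P (ap (ap (ap 4 x) y) z) (ap (ap x z) (ap y z))) ∧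
  (∀ x, x < N → ∀ y, y < N → ap 8 (ap (ap 6 x) y) < N → mem P (ap 8 (ap (ap 6 x) y)) x) ∧
  (∀ x, x < N → ∀ y, y < N → ap 10 (ap (ap 6 x) y) < N → mem P (ap 10 (ap (ap 6 x) y)) y)

/-- Symmetric, and closed under surjective pairing. -/
def symsp (N P : ℕ) : Prop :=
  (∀ a, a < N → ∀ b, b < N → mem P a b → mem P b a) ∧
  (∀ x, x < N → ap (ap 6 (ap 8 x)) (ap 10 x) < N → mem P (ap (ap 6 (ap 8 x)) (ap 10 x)) x)

/-- The equational theory restricted to the terms with codes below `N`. -/
def EN (N a b : ℕ) : Prop :=
  a < N ∧ b < N ∧ ∀ P, P < 2 ^ (N * N) → base N P → rules N P → symsp N P → mem P a b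

/-- The conditional rules, the conditions being decided by the bounded equational theory. -/
def cond (N P : ℕ) : Prop :=
  ∀ x, x < N → ∀ y, y < N → ap (ap 6 (ap 8 x)) (ap 10 y) < N → EN N x y →
    mem P (ap (ap 6 (ap 8 x)) (ap 10 y)) x ∧ mem P (ap (ap 6 (ap 8 x)) (ap 10 y)) y

/-- The reduction preorder restricted to the terms with codes below `N`. -/
def RN (N a b : ℕ) : Prop :=
  a < N ∧ b < N ∧ ∀ P, P < 2 ^ (N * N) → base N P → rules N P → cond N P → mem P a b

theorem pp_base {N P : α → ℕ} (hN : Primrec N) (hP : Primrec P) :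
    PrimrecPred (fun a => base (N a) (P a)) := by
  unfold base
  repeat' first | apply pp_and | apply pp_ball | apply pp_imp | apply pp_mem | apply pp_lt
  all_goals fun_prop

theorem pp_rules {N P : α → ℕ} (hN : Primrec N) (hP : Primrec P) :
    PrimrecPred (fun a => rules (N a) (P a)) := by
  unfold rules
  repeat' first | apply pp_and | apply pp_ball | apply pp_imp | apply pp_mem | apply pp_lt
  all_goals fun_prop

theorem pp_symsp {N P : α → ℕ} (hN : Primrec N) (hP : Primrec P) :
    PrimrecPred (fun a => symsp (N a) (P a)) := by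
  unfold symsp
  repeat' first | apply pp_and | apply pp_ball | apply pp_imp | apply pp_mem | apply pp_lt
  all_goals fun_prop

theorem pp_EN {N f g : α → ℕ} (hN : Primrec N) (hf : Primrec f) (hg : Primrec g) :
    PrimrecPred (fun a => EN (N a) (f a) (g a)) := by
  unfold EN
  repeat' first | apply pp_and | apply pp_ball | apply pp_imp | apply pp_mem | apply pp_lt |
    apply pp_base | apply pp_rules | apply pp_symsp
  all_goals fun_prop

theorem pp_cond {N P : α → ℕ} (hN : Primrec N) (hP : Primrec P) :
    PrimrecPred (fun a => cond (N a) (P a)) := by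
  unfold cond
  repeat' first | apply pp_and | apply pp_ball | apply pp_imp | apply pp_mem | apply pp_lt |
    apply pp_EN
  all_goals fun_prop

theorem pp_RN {N f g : α → ℕ} (hN : Primrec N) (hf : Primrec f) (hg : Primrec g) :
    PrimrecPred (fun a => RN (N a) (f a) (g a)) := by
  unfold RN
  repeat' first | apply pp_and | apply pp_ball | apply pp_imp | apply pp_mem | apply pp_lt |
    apply pp_base | apply pp_rules | apply pp_cond
  all_goals fun_prop

/-- An iteration bounding the code of every term with few nodes and small atoms. -/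
def grow (x : ℕ) : ℕ := ap x x

/-- All one-step reducts of the terms with codes below `N` have codes below `B N`. -/
def B (N : ℕ) : ℕ := grow^[2 * N + 2] (N + 12) + 1

theorem pr_B {f : α → ℕ} (hf : Primrec f) : Primrec (fun a => B (f a)) := by
  have h : Primrec (fun n : ℕ => grow^[2 * n + 2] (n + 12)) :=
    Primrec.nat_iterate (f := fun n => 2 * n + 2) (g := fun n => n + 12) (h := fun _ m => grow m)
      (by fun_prop) (by fun_prop)
      (by
        have : Primrec (fun m : ℕ => grow m) := by unfold grow; fun_prop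
        exact this.comp Primrec.snd)
  have h2 : Primrec B := by
    unfold B
    exact pr_add h (pr_const 1)
  exact h2.comp hf

attribute [fun_prop] pr_B

end Pool.Agent.H557R2.Nf
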