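import Pool.Agent.H557R2.Nf.Main

/-!
# The strategy as a primitive recursive function on codes
-/

namespace Pool.Agent.H557R2.Nf

open Pool.Agent.Results.MP_a981ee_lc.Confluence Relation

/-- Being a normal form, on codes. -/
def nfc (u : ℕ) : Prop := ∀ v, v < B (u + 1) → RN (B (u + 1)) u v → v = u

theorem nfc_iff (t : Term ℕ) : nfc (enc t) ↔ NF t := by
  constructor
  · intro h
    by_contra hn
    obtain ⟨u, hu⟩ := st0_of_not_nf hn
    have h1 : enc u < B (enc t + 1) := step_lt_B hu (Nat.lt_succ_self _)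
    have h2 : enc t < B (enc t + 1) := (Nat.lt_succ_self _).trans (le_B _)
    have h3 := h _ h1 (RN_iff.2 (.of_st0 hu h2 h1))
    exact step_ne hu (enc_inj h3).symm
  · intro h v _ hv
    obtain ⟨u, rfl⟩ := enc_surj v
    rw [h.eq (RN_iff.1 hv).toRS]

/-- A normal form equal to `t` within the bound given by `t`. -/
def p1 (t u : ℕ) : Prop := nfc u ∧ EN (t + 1) t u

/-- A larger reduct of `t`. -/
def p2 (t u : ℕ) : Prop := t < u ∧ RN (u + 1) t u

/-- Another reduct of `t`. -/
def p3 (t u : ℕ) : Prop := u ≠ t ∧ RN (B (t + 1)) t u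

/-- The choice relation of the strategy. -/
def q (t u : ℕ) : Prop :=
  p1 t u ∨ ((¬ ∃ v, v < B (t + 1) ∧ p1 t v) ∧ p2 t u) ∨
    ((¬ ∃ v, v < B (t + 1) ∧ p1 t v) ∧ (¬ ∃ v, v < B (t + 1) ∧ p2 t v) ∧ p3 t u)

section

variable {α : Type} [Primcodable α]

theorem pp_nfc {f : α → ℕ} (hf : Primrec f) : PrimrecPred (fun a => nfc (f a)) := by
  unfold nfc
  repeat' first | apply pp_ball | apply pp_imp | apply pp_RN | apply pp_eq
  all_goals fun_prop

theorem pp_p1 {f g : α → ℕ} (hf : Primrec f) (hg : Primrec g) :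
    PrimrecPred (fun a => p1 (f a) (g a)) := by
  unfold p1
  exact pp_and (pp_nfc hg) (pp_EN (by fun_prop) hf hg)

theorem pp_p2 {f g : α → ℕ} (hf : Primrec f) (hg : Primrec g) :
    PrimrecPred (fun a => p2 (f a) (g a)) := by
  unfold p2
  exact pp_and (pp_lt hf hg) (pp_RN (by fun_prop) hf hg)

theorem pp_p3 {f g : α → ℕ} (hf : Primrec f) (hg : Primrec g) :
    PrimrecPred (fun a => p3 (f a) (g a)) := by
  unfold p3
  refine pp_and (pp_not (pp_eq hg hf)) (pp_RN ?_ ?_ ?_)
  all_goals fun_prop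

theorem pp_q {f g : α → ℕ} (hf : Primrec f) (hg : Primrec g) :
    PrimrecPred (fun a => q (f a) (g a)) := by
  have h1 : PrimrecPred (fun a => ¬ ∃ v, v < B (f a + 1) ∧ p1 (f a) v) := by
    refine pp_not (pp_bex ?_ (pp_p1 ?_ ?_))
    all_goals fun_prop
  have h2 : PrimrecPred (fun a => ¬ ∃ v, v < B (f a + 1) ∧ p2 (f a) v) := by
    refine pp_not (pp_bex ?_ (pp_p2 ?_ ?_))
    all_goals fun_prop
  unfold q
  exact pp_or (pp_p1 hf hg) (pp_or (pp_and h1 (pp_p2 hf hg))
    (pp_and h1 (pp_and h2 (pp_p3 hf hg))))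

end

open Classical in
/-- The strategy, on codes. -/
noncomputable def fcode (t : ℕ) : ℕ := Nat.findGreatest (q t) (B (t + 1))

theorem primrec_fcode : Nat.Primrec fcode := by
  classical
  have h : Primrec fcode := by
    unfold fcode
    refine Primrec.nat_findGreatest (f := fun t => B (t + 1)) (p := q) (by fun_prop) ?_
    exact pp_q Primrec.fst Primrec.snd
  exact Primrec.nat_iff.1 h

/-- The strategy. -/
noncomputable def F (t : Term ℕ) : Term ℕ := dec (fcode (enc t))

theorem enc_F (t : Term ℕ) : enc (F t) = fcode (enc t) := enc_dec _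

theorem q_iff_ex (t : Term ℕ) : ∃ u, u ≤ B (enc t + 1) ∧ q (enc t) u := by
  by_cases h1 : ∃ v, v < B (enc t + 1) ∧ p1 (enc t) v
  · obtain ⟨v, h, h'⟩ := h1
    exact ⟨v, h.le, .inl h'⟩
  by_cases h2 : ∃ v, v < B (enc t + 1) ∧ p2 (enc t) v
  · obtain ⟨v, h, h'⟩ := h2
    exact ⟨v, h.le, .inr (.inl ⟨h1, h'⟩)⟩
  have hnf : ¬ NF t := by
    intro h
    exact h1 ⟨enc t, (Nat.lt_succ_self _).trans (le_B _), (nfc_iff t).2 h,
      EN_iff.2 (.refl t (Nat.lt_succ_self _))⟩
  obtain ⟨u, hu⟩ := st0_of_not_nf hnf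
  have h3 : enc u < B (enc t + 1) := step_lt_B hu (Nat.lt_succ_self _)
  have h4 : enc t < B (enc t + 1) := (Nat.lt_succ_self _).trans (le_B _)
  exact ⟨enc u, h3.le, .inr (.inr ⟨h1, h2, fun h => step_ne hu (enc_inj h).symm,
    RN_iff.2 (.of_st0 hu h4 h3)⟩)⟩

theorem q_F (t : Term ℕ) : q (enc t) (enc (F t)) := by
  classical
  obtain ⟨u, hu, hq⟩ := q_iff_ex t
  rw [enc_F]
  unfold fcode
  exact Nat.findGreatest_spec (P := q (enc t)) hu hq

theorem RS_F (t : Term ℕ) : RS t (F t) := by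
  rcases q_F t with h | ⟨_, h⟩ | ⟨_, _, h⟩
  · exact ((nfc_iff _).1 h.1).reach (EN_iff.1 h.2).toE
  · exact (RN_iff.1 h.2).toRS
  · exact (RN_iff.1 h.2).toRS

/-- On a term that is not a normal form the strategy makes at least one step. -/
theorem F_ne {t : Term ℕ} (ht : ¬ NF t) : F t ≠ t := by
  rcases q_F t with h | ⟨_, h⟩ | ⟨_, _, h⟩
  · intro he
    rw [he] at h
    exact ht ((nfc_iff _).1 h.1)
  · intro he
    have h2 := h.1
    rw [he] at h2
    exact lt_irrefl _ h2
  · intro he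
    exact h.1 (by rw [he])

theorem trans_F {t : Term ℕ} (ht : ¬ NF t) : TransGen (Step E) t (F t) := by
  rcases Relation.reflTransGen_iff_eq_or_transGen.1 (RS_F t) with h | h
  · exact absurd h (F_ne ht)
  · exact h

theorem F_nf {t : Term ℕ} (ht : NF t) : F t = t := ht.eq (RS_F t)

/-- If the strategy does not find the normal form at once, it moves to a larger reduct. -/
theorem F_step {t n : Term ℕ} (hn : NF n) (h : RS t n) :
    F t = n ∨ (¬ EB (enc t + 1) t n ∧ enc t < enc (F t) ∧ RB (enc (F t) + 1) t (F t)) := by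
  by_cases h1 : ∃ v, v < B (enc t + 1) ∧ p1 (enc t) v
  · left
    rcases q_F t with h2 | ⟨h2, _⟩ | ⟨h2, _⟩
    · refine ((nfc_iff _).1 h2.1).uniq hn ?_
      exact (EN_iff.1 h2.2).toE.symm.trans (RS.toE h)
    · exact absurd h1 h2
    · exact absurd h1 h2
  · right
    have hEB : ¬ EB (enc t + 1) t n := by
      intro he
      refine h1 ⟨enc n, he.bnd.2.trans (le_B _), (nfc_iff n).2 hn, EN_iff.2 he⟩
    refine ⟨hEB, ?_⟩
    have h2 : ∃ v, v < B (enc t + 1) ∧ p2 (enc t) v := by
      by_contra hc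
      have hno : NoExit t := by
        intro v hv hvB hr
        exact hc ⟨enc v, hvB, hv, RN_iff.2 hr⟩
      exact hEB (all_found hno h).toEB
    rcases q_F t with h3 | ⟨_, h3⟩ | ⟨_, h3, _⟩
    · exfalso
      refine h1 ⟨enc (F t), ?_, h3⟩
      have := (EN_iff.1 h3.2).bnd.2
      exact this.trans (le_B _)
    · exact ⟨h3.1, RN_iff.1 h3.2⟩
    · exact absurd h2 h3

/-- The strategy reaches the normal form of every term that has one. -/
theorem F_normalizes {t n : Term ℕ} (hn : NF n) (h : RS t n) : ∃ k, F^[k] t = n := by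
  by_contra hc
  push Not at hc
  obtain ⟨K, hK⟩ := E_bounded (RS.toE h)
  have hRS : ∀ i, RS (F^[i] t) n := by
    intro i
    induction i with
    | zero => exact h
    | succ i ih =>
        rw [Function.iterate_succ_apply']
        exact hn.reach ((RS.toE (RS_F _)).symm.trans (RS.toE ih))
  have hstep : ∀ i, enc (F^[i] t) < enc (F^[i + 1] t) ∧
      RB (enc (F^[i + 1] t) + 1) (F^[i] t) (F^[i + 1] t) := by
    intro i
    have h1 := hc (i + 1)
    rw [Function.iterate_succ_apply'] at h1 ⊢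
    rcases F_step hn (hRS i) with h2 | ⟨_, h2⟩
    · exact absurd h2 h1
    · exact h2
  have hge : ∀ i, i ≤ enc (F^[i] t) := by
    intro i
    induction i with
    | zero => exact Nat.zero_le _
    | succ i ih => have := (hstep i).1; omega
  have hall : ∀ i, EB (enc (F^[i] t) + 1) t (F^[i] t) := by
    intro i
    induction i with
    | zero => exact .refl t (Nat.lt_succ_self _)
    | succ i ih =>
        obtain ⟨h1, h2⟩ := hstep i
        exact (ih.mono (by omega)).trans h2.toEB
  have h1 : EB (enc (F^[K] t) + 1) (F^[K] t) n :=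
    (hall K).symm.trans (hK.mono (by have := hge K; omega))
  rcases F_step hn (hRS K) with h2 | ⟨h2, _⟩
  · exact hc (K + 1) (by rw [Function.iterate_succ_apply']; exact h2)
  · exact h2 h1

end Pool.Agent.H557R2.Nf
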